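import Mathlib
import Pool.Agent.MP_de3d19_pr.H76.Defs
import Pool.Agent.MP_de3d19_pr.H76.Upper
import Pool.Agent.MP_de3d19_pr.H76.Lower
import Pool.Agent.MP_de3d19_pr.H76.Law

set_option autoImplicit false

namespace Pool.Agent.Results.MP_de3d19_pr.NotMonotone

open Pool.Agent.MP_de3d19_pr.H76 MeasureTheory Filter

lemma gap : ∃ δ β : ℝ, 0 ≤ δ ∧ 0 < β ∧ ∃ D : ℕ, 1 ≤ D ∧ Fstar law δ β D < Fstar law δ β 1 := by
  set B : ℝ := 5000000000000 with hB
  have hB0 : 0 ≤ B := by norm_num [hB]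
  refine ⟨12 * B, 36 * B, by norm_num [hB], by norm_num [hB], ?_⟩
  set g := gStar law (12 * B) (36 * B) with hg
  set W := Real.exp B with hW
  have hWB : B + 1 ≤ W := Real.add_one_le_exp B
  have hW0 : 0 < W := Real.exp_pos B
  have g0 : g 0 = 1 := g_zero B
  have gpos : ∀ i, 0 < g i := g_pos B hB0
  have gle : ∀ i, g i ≤ W := g_le B hB0
  have hsmall : Real.exp (-B) ≤ 1 / 200 := by
    rw [Real.exp_neg, ← hW, inv_le_comm₀ hW0 (by norm_num)]
    norm_num [hB] at hWB ⊢
    linarith
  have g1 : g 1 ≤ 1 / 200 := (g_one B hB0).trans hsmall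
  have g2 : g 2 ≤ 1 / 200 := (g_two B hB0).trans hsmall
  have g3 : 4 / 13 * (9 / 13) ^ 2 * W ≤ g 3 := g_three B hB0
  set lam := (g 3 / (404 / 100)) ^ ((3 : ℕ) : ℝ)⁻¹ with hlam
  have h3 := gpos 3
  have hlam3 : lam ^ 3 = g 3 / (404 / 100) := Real.rpow_inv_natCast_pow (by positivity) (by norm_num)
  have hlam0 : 0 < lam := Real.rpow_pos_of_pos (by positivity) _
  have hlamW : W / 28 ≤ lam ^ 3 := by
    rw [hlam3, le_div_iff₀ (by norm_num)]
    nlinarith
  have hlam1 : 1 ≤ lam := by
    by_contra hn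
    have : lam ^ 3 ≤ 1 := pow_le_one₀ hlam0.le (not_le.1 hn).le
    norm_num [hB] at hWB
    linarith
  have hlam4 : 200 * W ≤ lam ^ 4 := by
    apply le_of_pow_le_pow_left₀ (n := 3) (by norm_num) (by positivity)
    calc (200 * W) ^ 3 ≤ (W / 28) ^ 4 := by
          have : (W / 28) ^ 4 = W ^ 3 * (W / 28 ^ 4) := by ring
          rw [this, mul_pow, mul_comm]
          apply mul_le_mul_of_nonneg_left _ (by positivity)
          norm_num [hB] at hWB ⊢
          linarith
      _ ≤ (lam ^ 3) ^ 4 := pow_le_pow_left₀ (by positivity) hlamW 4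
      _ = (lam ^ 4) ^ 3 := by ring
  have hH : ∀ N : ℕ, ∀ ρ : ℝ, 0 ≤ ρ → ∑ i ∈ Finset.range N,
      ((g i + if i = 0 then 0 else 1 / 200) / lam ^ i) * ρ ^ i / i.factorial ≤ Real.exp ρ := by
    apply meanfield (fun i => (g i + if i = 0 then 0 else 1 / 200) / lam ^ i)
    · simp [g0]
    · have h1 : (1 : ℝ) ≤ lam ^ 3 := one_le_pow₀ hlam1
      simp only [OfNat.ofNat_ne_zero, if_false]
      rw [div_le_iff₀ (by positivity)]
      have : g 3 = 404 / 100 * lam ^ 3 := by rw [hlam3]; field_simp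
      linarith
    · intro i hi0 hi3
      have h1 : (1 : ℝ) ≤ lam ^ i := one_le_pow₀ hlam1
      simp only [hi0, if_false]
      rw [div_le_iff₀ (by positivity)]
      have : g i ≤ 1 / 200 * lam ^ i := by
        rcases (show i = 1 ∨ i = 2 ∨ 4 ≤ i by omega) with rfl | rfl | h4
        · linarith
        · linarith
        · have := pow_le_pow_right₀ hlam1 h4
          have := gle i
          linarith
      linarith
  set η := Real.log (101 / 100) / 9 with hη
  have hη0 : 0 < η := div_pos (Real.log_pos (by norm_num)) (by norm_num)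
  obtain ⟨D, hD, hup⟩ := upper g W (1 / 200) lam g0 gpos gle (by norm_num) (by norm_num) hlam0 hH
    η hη0
  have hlow := lower g g0 gpos η hη0
  refine ⟨D, hD, ?_⟩
  have hgap : Real.log lam + η < Real.log (g 3 / 4) / 3 - η := by
    have e1 : Real.log (g 3 / 4) = 3 * Real.log lam + Real.log (101 / 100) := by
      have : g 3 / 4 = lam ^ 3 * (101 / 100) := by rw [hlam3]; field_simp; norm_num
      rw [this, Real.log_mul (by positivity) (by norm_num), Real.log_pow]
      norm_num
    rw [e1]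
    linarith
  calc Fstar law (12 * B) (36 * B) D ≤ ((Real.log lam + η : ℝ) : EReal) := by
        apply limsup_le_of_le (by isBoundedDefault)
        filter_upwards [hup] with n hn
        exact EReal.coe_le_coe_iff.2 hn
    _ < ((Real.log (g 3 / 4) / 3 - η : ℝ) : EReal) := EReal.coe_lt_coe_iff.2 hgap
    _ ≤ Fstar law (12 * B) (36 * B) 1 := by
        apply le_limsup_of_frequently_le'
        exact hlow.mono (fun n hn => EReal.coe_le_coe_iff.2 hn)

theorem result :
    ∃ μ : Measure ℝ, Admissible μ ∧ ∃ d : ℕ, 1 ≤ d ∧ ∃ δ β : ℝ, 0 ≤ δ ∧ 0 < β ∧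
      Fstar μ δ β (d + 1) < Fstar μ δ β d := by
  obtain ⟨δ, β, hδ, hβ, D, hD, hlt⟩ := gap
  by_contra hn
  push Not at hn
  have h := hn law law_admissible
  have key : ∀ d : ℕ, 1 ≤ d → Fstar law δ β 1 ≤ Fstar law δ β d := by
    intro d hd
    induction d, hd using Nat.le_induction with
    | base => exact le_refl _
    | succ d hd ih => exact ih.trans (h d hd δ β hδ hβ)
  exact absurd (key D hD) (not_le.2 hlt)

end Pool.Agent.Results.MP_de3d19_pr.NotMonotone
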